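import Pool.Agent.H168DD.Graph

/-!
A bound of Tutte and Berge type for dominating sets of orientations of a graph.
-/

set_option autoImplicit false
set_option linter.unusedSectionVars false
set_option linter.unusedVariables false

open Relation

namespace Pool.Agent.Y359.DD

open H168DD

variable {V : Type*} [Fintype V] [DecidableEq V]
variable {G : SimpleGraph V} {D : V → V → Prop}

/-- `F` is a family of pairwise disjoint odd sets outside `A` which no edge leaves except to
`A`. -/
structure Fam (G : SimpleGraph V) (A : Finset V) (F : Finset (Finset V)) : Prop where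
  odd : ∀ O ∈ F, Odd O.card
  disj : ∀ O ∈ F, ∀ O' ∈ F, O ≠ O' → Disjoint O O'
  dA : ∀ O ∈ F, Disjoint O A
  cl : ∀ O ∈ F, ∀ x ∈ O, ∀ y, G.Adj x y → y ∈ O ∨ y ∈ A

/-- single vertices and sets with two vertices of degree two -/
def Bad (G : SimpleGraph V) (O : Finset V) : Prop :=
  O.card = 1 ∨ ∃ x ∈ O, ∃ y ∈ O, x ≠ y ∧ nb G x O = 2 ∧ nb G y O = 2

/-- `m` is a perfect matching of `G` on `P`. -/
def PM (G : SimpleGraph V) (P : Finset V) (m : V → V) : Prop :=
  ∀ x ∈ P, m x ∈ P ∧ m (m x) = x ∧ G.Adj x (m x)

lemma fam_empty : Fam G ∅ ∅ :=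
  ⟨by simp, by simp, by simp, by simp⟩

/-- parity extension -/
lemma Fam.ext_par {A : Finset V} {F : Finset (Finset V)} (h : Fam G A F)
    (hp : (F.card + A.card + Fintype.card V) % 2 = 1) :
    ∃ F', Fam G A F' ∧ F'.card = F.card + 1 := by
  classical
  set Z := F.biUnion id with hZ
  set X := (Finset.univ \ A) \ Z with hX
  have hcZ : Z.card = ∑ O ∈ F, O.card := by
    rw [hZ, Finset.card_biUnion]
    · simp
    · intro O hO O' hO' hne
      exact h.disj O hO O' hO' hne
  have hZA : Z ⊆ Finset.univ \ A := by
    intro x hx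
    rw [hZ, Finset.mem_biUnion] at hx
    obtain ⟨O, hO, hx⟩ := hx
    rw [Finset.mem_sdiff]
    exact ⟨Finset.mem_univ _, Finset.disjoint_left.1 (h.dA O hO) hx⟩
  have hparZ : (Z.card + F.card) % 2 = 0 := by
    rw [hcZ]
    have : ∑ O ∈ F, O.card + F.card = ∑ O ∈ F, (O.card + 1) := by
      rw [Finset.sum_add_distrib]; simp
    rw [this]
    have hdv : 2 ∣ ∑ O ∈ F, (O.card + 1) := by
      apply Finset.dvd_sum
      intro O hO
      obtain ⟨p, hp⟩ := h.odd O hO
      exact ⟨p + 1, by omega⟩
    omega
  have hc1 : (Finset.univ \ A).card + A.card = Fintype.card V := by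
    rw [Finset.card_sdiff_add_card_eq_card (Finset.subset_univ A), Finset.card_univ]
  have hc2 : X.card + Z.card = (Finset.univ \ A).card := by
    rw [hX, Finset.card_sdiff_add_card_eq_card hZA]
  have hXodd : Odd X.card := by
    rw [Nat.odd_iff]
    omega
  have hXne : X.Nonempty := by
    rw [← Finset.card_pos]
    obtain ⟨p, hp⟩ := hXodd
    omega
  have hXF : ∀ O ∈ F, Disjoint X O := by
    intro O hO
    rw [Finset.disjoint_left]
    intro x hx hxO
    rw [hX, Finset.mem_sdiff] at hx
    apply hx.2
    rw [hZ, Finset.mem_biUnion]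
    exact ⟨O, hO, hxO⟩
  have hXnF : X ∉ F := by
    intro hm
    have := hXF X hm
    rw [disjoint_self] at this
    rw [this] at hXne
    simp at hXne
  refine ⟨insert X F, ⟨?_, ?_, ?_, ?_⟩, Finset.card_insert_of_notMem hXnF⟩
  · intro O hO
    rcases Finset.mem_insert.1 hO with rfl | hO
    · exact hXodd
    · exact h.odd O hO
  · intro O hO O' hO' hne
    rcases Finset.mem_insert.1 hO with rfl | hO
    · rcases Finset.mem_insert.1 hO' with rfl | hO'
      · exact absurd rfl hne
      · exact hXF O' hO'
    · rcases Finset.mem_insert.1 hO' with rfl | hO'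
      · exact (hXF O hO).symm
      · exact h.disj O hO O' hO' hne
  · intro O hO
    rcases Finset.mem_insert.1 hO with rfl | hO
    · rw [Finset.disjoint_left]
      intro x hx
      rw [hX, Finset.mem_sdiff, Finset.mem_sdiff] at hx
      exact hx.1.2
    · exact h.dA O hO
  · intro O hO x hx y hxy
    rcases Finset.mem_insert.1 hO with rfl | hO
    · by_cases hyA : y ∈ A
      · exact Or.inr hyA
      · left
        rw [hX, Finset.mem_sdiff, Finset.mem_sdiff]
        refine ⟨⟨Finset.mem_univ _, hyA⟩, ?_⟩
        intro hyZ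
        rw [hZ, Finset.mem_biUnion] at hyZ
        obtain ⟨O, hO, hyO⟩ := hyZ
        rw [hX, Finset.mem_sdiff, Finset.mem_sdiff] at hx
        rcases h.cl O hO y hyO x (G.adj_symm hxy) with h1 | h1
        · apply hx.2
          rw [hZ, Finset.mem_biUnion]
          exact ⟨O, hO, h1⟩
        · exact hx.1.2 h1
    · exact h.cl O hO x hx y hxy

/-- the extremal pair -/
lemma exists_max : ∃ (A : Finset V) (F : Finset (Finset V)) (d : ℕ), Fam G A F ∧
    F.card = A.card + d ∧ (∀ A' F', Fam G A' F' → F'.card ≤ A'.card + d) ∧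
    (∀ A' F', Fam G A' F' → F'.card = A'.card + d → A'.card ≤ A.card) := by
  classical
  set T : Finset (Finset V × Finset (Finset V)) :=
    Finset.univ.filter (fun p => Fam G p.1 p.2) with hT
  have hTne : T.Nonempty := ⟨(∅, ∅), by rw [hT]; simp [fam_empty]⟩
  obtain ⟨p, hp, hpmax⟩ := Finset.exists_max_image T (fun p => p.2.card - p.1.card) hTne
  set d := p.2.card - p.1.card with hd
  set T2 := T.filter (fun q => q.2.card = q.1.card + d) with hT2
  have hT2ne : T2.Nonempty := by
    by_cases h0 : d = 0
    · exact ⟨(∅, ∅), by rw [hT2, hT]; simp [fam_empty, h0]⟩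
    · refine ⟨p, ?_⟩
      rw [hT2, Finset.mem_filter]
      exact ⟨hp, by omega⟩
  obtain ⟨q, hq, hqmax⟩ := Finset.exists_max_image T2 (fun p => p.1.card) hT2ne
  rw [hT2, Finset.mem_filter, hT, Finset.mem_filter] at hq
  refine ⟨q.1, q.2, d, hq.1.2, hq.2, ?_, ?_⟩
  · intro A' F' h
    have := hpmax (A', F') (by rw [hT]; simp [h])
    simp only at this
    omega
  · intro A' F' h hc
    exact hqmax (A', F') (by rw [hT2, hT]; simp [h, hc])

section maximal

variable {A : Finset V} {F : Finset (Finset V)} {d : ℕ}

lemma par_of_max (h : Fam G A F) (hc : F.card = A.card + d)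
    (h1 : ∀ A' F', Fam G A' F' → F'.card ≤ A'.card + d) : Fintype.card V % 2 = d % 2 := by
  by_contra hne
  obtain ⟨F', hF', hc'⟩ := h.ext_par (by omega)
  have := h1 A F' hF'
  omega

lemma cover_of_max (h : Fam G A F) (hc : F.card = A.card + d)
    (h1 : ∀ A' F', Fam G A' F' → F'.card ≤ A'.card + d)
    (h2 : ∀ A' F', Fam G A' F' → F'.card = A'.card + d → A'.card ≤ A.card) (x : V) :
    x ∈ A ∨ ∃ O ∈ F, x ∈ O := by
  by_contra hcon
  push Not at hcon
  obtain ⟨hxA, hxF⟩ := hcon
  have hf : Fam G (insert x A) F := by
    refine ⟨h.odd, h.disj, ?_, ?_⟩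
    · intro O hO
      rw [Finset.disjoint_insert_right]
      exact ⟨hxF O hO, h.dA O hO⟩
    · intro O hO u hu y huy
      rcases h.cl O hO u hu y huy with h3 | h3
      · exact Or.inl h3
      · exact Or.inr (Finset.mem_insert_of_mem h3)
  have hp := par_of_max h hc h1
  have hci : (insert x A).card = A.card + 1 := Finset.card_insert_of_notMem hxA
  obtain ⟨F', hF', hc'⟩ := hf.ext_par (by omega)
  have := h2 _ F' hF' (by omega)
  omega

lemma fc_of_max (h : Fam G A F) (hc : F.card = A.card + d)
    (h1 : ∀ A' F', Fam G A' F' → F'.card ≤ A'.card + d)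
    (h2 : ∀ A' F', Fam G A' F' → F'.card = A'.card + d → A'.card ≤ A.card)
    {O : Finset V} (hO : O ∈ F) {w : V} (hw : w ∈ O) : ∃ m, PM G (O.erase w) m := by
  classical
  have hcw : (O.erase w).card + 1 = O.card := Finset.card_erase_add_one hw
  have hev : Even ((O.erase w).card + 0) := by
    obtain ⟨p, hp⟩ := h.odd O hO
    exact ⟨p, by omega⟩
  obtain ⟨U, m, hU, hUc, hm⟩ := tutte_berge G (O.erase w) 0 hev (by
    intro B F2 hB hodd hdisj hsub hcl
    by_contra hcon
    have hcon' : B.card + 1 ≤ F2.card := by omega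
    have hBO : B ⊆ O := hB.trans (Finset.erase_subset _ _)
    have hwB : w ∉ B := fun h => (Finset.notMem_erase w O) (hB h)
    have hins : (insert w B).card = B.card + 1 := Finset.card_insert_of_notMem hwB
    have hiO : insert w B ⊆ O := Finset.insert_subset hw hBO
    have hdAi : Disjoint A (insert w B) := by
      rw [Finset.disjoint_left]
      intro x hx hx'
      exact Finset.disjoint_left.1 (h.dA O hO) (hiO hx') hx
    have hA1 : (A ∪ insert w B).card = A.card + B.card + 1 := by
      rw [Finset.card_union_of_disjoint hdAi, hins]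
      ring
    have hPO : ∀ P ∈ F2, P ⊆ O := by
      intro P hP x hx
      exact Finset.mem_of_mem_erase (Finset.mem_sdiff.1 (hsub P hP hx)).1
    have hPne : ∀ P ∈ F2, P.Nonempty := by
      intro P hP
      obtain ⟨p, hp⟩ := hodd P hP
      rw [← Finset.card_pos]; omega
    have hdF : Disjoint (F.erase O) F2 := by
      rw [Finset.disjoint_left]
      intro P hP hP2
      obtain ⟨x, hx⟩ := hPne P hP2
      rw [Finset.mem_erase] at hP
      exact Finset.disjoint_left.1 (h.disj P hP.2 O hO hP.1) hx (hPO P hP2 hx)
    have hF1 : (F.erase O ∪ F2).card + 1 = F.card + F2.card := by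
      rw [Finset.card_union_of_disjoint hdF]
      have := Finset.card_erase_add_one hO
      omega
    have hfam : Fam G (A ∪ insert w B) (F.erase O ∪ F2) := by
      refine ⟨?_, ?_, ?_, ?_⟩
      · intro P hP
        rcases Finset.mem_union.1 hP with hP | hP
        · exact h.odd P (Finset.mem_of_mem_erase hP)
        · exact hodd P hP
      · intro P hP Q hQ hne
        rcases Finset.mem_union.1 hP with hP | hP
        · rw [Finset.mem_erase] at hP
          rcases Finset.mem_union.1 hQ with hQ | hQ
          · exact h.disj P hP.2 Q (Finset.mem_of_mem_erase hQ) hne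
          · exact Finset.disjoint_of_subset_right (hPO Q hQ) (h.disj P hP.2 O hO hP.1)
        · rcases Finset.mem_union.1 hQ with hQ | hQ
          · rw [Finset.mem_erase] at hQ
            exact Finset.disjoint_of_subset_left (hPO P hP) (h.disj Q hQ.2 O hO hQ.1).symm
          · exact hdisj P hP Q hQ hne
      · intro P hP
        rw [Finset.disjoint_union_right]
        rcases Finset.mem_union.1 hP with hP | hP
        · rw [Finset.mem_erase] at hP
          exact ⟨h.dA P hP.2, Finset.disjoint_of_subset_right hiO (h.disj P hP.2 O hO hP.1)⟩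
        · refine ⟨Finset.disjoint_of_subset_left (hPO P hP) (h.dA O hO), ?_⟩
          rw [Finset.disjoint_left]
          intro x hx hx'
          have hx2 := Finset.mem_sdiff.1 (hsub P hP hx)
          rcases Finset.mem_insert.1 hx' with rfl | hx'
          · exact Finset.notMem_erase _ _ hx2.1
          · exact hx2.2 hx'
      · intro P hP x hx y hxy
        rcases Finset.mem_union.1 hP with hP | hP
        · rw [Finset.mem_erase] at hP
          rcases h.cl P hP.2 x hx y hxy with h3 | h3
          · exact Or.inl h3
          · exact Or.inr (Finset.mem_union_left _ h3)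
        · rcases h.cl O hO x (hPO P hP hx) y hxy with h3 | h3
          · by_cases hyw : y = w
            · right
              apply Finset.mem_union_right
              rw [hyw]
              exact Finset.mem_insert_self _ _
            · rcases hcl P hP x hx y (Finset.mem_erase.2 ⟨hyw, h3⟩) hxy with h4 | h4
              · exact Or.inl h4
              · exact Or.inr (Finset.mem_union_right _ (Finset.mem_insert_of_mem h4))
          · exact Or.inr (Finset.mem_union_left _ h3)
    have hp := par_of_max h hc h1
    have hb1 := h1 _ _ hfam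
    by_cases heq : (F.erase O ∪ F2).card = (A ∪ insert w B).card + d
    · have := h2 _ _ hfam heq
      omega
    · obtain ⟨F', hF', hc'⟩ := hfam.ext_par (by omega)
      have := h2 _ F' hF' (by omega)
      omega)
  have hU0 : U = ∅ := Finset.card_eq_zero.1 (by omega)
  subst hU0
  refine ⟨m, fun x hx => ?_⟩
  have := hm x (by simpa using hx)
  exact ⟨by simpa using this.1, this.2.1, this.2.2⟩

end maximal

end Pool.Agent.Y359.DD
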