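import Pool.Agent.Y359.DD.Main

/-!
Degree conditions for the bound of Tutte and Berge type.
-/

set_option autoImplicit false
set_option linter.unusedSectionVars false
set_option linter.unusedVariables false

open Relation

namespace Pool.Agent.Y359.DD

open H168DD

variable {V : Type*} [Fintype V] [DecidableEq V]
variable {G : SimpleGraph V} {D : V → V → Prop} {A : Finset V} {F : Finset (Finset V)}

lemma nb_split (v : V) (O : Finset V) : nb G v O + nb G v Oᶜ = nb G v Finset.univ := by
  rw [← nb_union disjoint_compl_right, Finset.union_compl]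

lemma ad_split (O : Finset V) :
    ad G O O + bd G O = ∑ v ∈ O, nb G v Finset.univ := by
  unfold bd ad
  rw [← Finset.sum_add_distrib]
  exact Finset.sum_congr rfl (fun v _ => nb_split v O)

lemma nb_lt_card {v : V} {O : Finset V} (hv : v ∈ O) : nb G v O + 1 ≤ O.card := by
  classical
  unfold nb
  have h1 : O.filter (fun u => G.Adj v u) ⊆ O.erase v := by
    intro u hu
    rw [Finset.mem_filter] at hu
    exact Finset.mem_erase.2 ⟨fun h => G.irrefl (h ▸ hu.2), hu.1⟩
  have h2 := Finset.card_le_card h1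
  have h3 := Finset.card_erase_add_one hv
  omega

/-- the boundaries of the members of a closed family -/
lemma Fam.sum_bd (h : Fam G A F) {Δ : ℕ} (hΔ : ∀ v, nb G v Finset.univ ≤ Δ) :
    ∑ O ∈ F, bd G O ≤ Δ * A.card := by
  classical
  have h1 : ∀ O ∈ F, bd G O ≤ ad G O A := by
    intro O hO
    unfold bd ad
    apply Finset.sum_le_sum
    intro x hx
    unfold nb
    apply Finset.card_le_card
    intro y hy
    rw [Finset.mem_filter] at hy ⊢
    refine ⟨?_, hy.2⟩
    rcases h.cl O hO x hx y hy.2 with h3 | h3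
    · exact absurd h3 (Finset.mem_compl.1 hy.1)
    · exact h3
  have h3 : ∑ O ∈ F, ad G O A = ad G (F.biUnion id) A := by
    unfold ad
    rw [Finset.sum_biUnion]
    · simp
    · intro O hO O' hO' hne
      exact h.disj O hO O' hO' hne
  calc ∑ O ∈ F, bd G O ≤ ∑ O ∈ F, ad G O A := Finset.sum_le_sum h1
    _ = ad G (F.biUnion id) A := h3
    _ ≤ ad G Finset.univ A := ad_mono_left (Finset.subset_univ _)
    _ = ad G A Finset.univ := ad_comm _ _
    _ = ∑ v ∈ A, nb G v Finset.univ := rfl
    _ ≤ ∑ v ∈ A, Δ := Finset.sum_le_sum (fun v _ => hΔ v)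
    _ = Δ * A.card := by rw [Finset.sum_const, smul_eq_mul, mul_comm]

lemma Fam.sum_card (h : Fam G A F) : ∑ O ∈ F, O.card + A.card ≤ Fintype.card V := by
  classical
  have hcZ : (F.biUnion id).card = ∑ O ∈ F, O.card := by
    rw [Finset.card_biUnion]
    · simp
    · intro O hO O' hO' hne
      exact h.disj O hO O' hO' hne
  have hd : Disjoint (F.biUnion id) A := by
    rw [Finset.disjoint_left]
    intro x hx
    rw [Finset.mem_biUnion] at hx
    obtain ⟨O, hO, hx⟩ := hx
    exact Finset.disjoint_left.1 (h.dA O hO) hx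
  rw [← hcZ, ← Finset.card_union_of_disjoint hd]
  exact Finset.card_le_univ _

/-- what is used about bad sets -/
lemma bad_facts (hD : Ori G D) {δ Δ : ℕ} (hδ : ∀ v, δ ≤ nb G v Finset.univ)
    (hΔ : ∀ v, nb G v Finset.univ ≤ Δ) {O : Finset V} (hodd : Odd O.card) (hB : Bad G O) :
    (O.card = 1 ∧ δ ≤ bd G O) ∨ (3 ≤ O.card ∧ 2 ≤ Δ ∧ 2 * δ ≤ bd G O + 4 ∧
      (O.card = 3 → 3 * δ ≤ bd G O + 6) ∧ (δ = 3 → Δ = 3 → Odd (bd G O))) := by
  classical
  rcases hB with h1 | ⟨x, hx, y, hy, hxy, hx2, hy2⟩
  · left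
    refine ⟨h1, ?_⟩
    obtain ⟨v, rfl⟩ := Finset.card_eq_one.1 h1
    have e := ad_split (G := G) {v}
    have e2 : ad G {v} {v} = 0 := by
      unfold ad nb
      simp
    simp only [Finset.sum_singleton] at e
    have := hδ v
    omega
  · right
    have hc2 : 2 ≤ O.card := by
      have : ({x, y} : Finset V) ⊆ O := by
        intro z hz
        simp only [Finset.mem_insert, Finset.mem_singleton] at hz
        rcases hz with rfl | rfl
        · exact hx
        · exact hy
      have h3 := Finset.card_le_card this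
      rw [Finset.card_pair hxy] at h3
      exact h3
    have hc3 : 3 ≤ O.card := by
      obtain ⟨p, hp⟩ := hodd
      omega
    have sx := nb_split (G := G) x O
    have sy := nb_split (G := G) y O
    have dx := hδ x
    have dy := hδ y
    have dx' := hΔ x
    refine ⟨hc3, by omega, ?_, ?_, ?_⟩
    · have hb : nb G x Oᶜ + nb G y Oᶜ ≤ bd G O := by
        unfold bd ad
        rw [← Finset.add_sum_erase O _ hx]
        have hy' : y ∈ O.erase x := Finset.mem_erase.2 ⟨hxy.symm, hy⟩
        rw [← Finset.add_sum_erase (O.erase x) _ hy']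
        omega
      omega
    · intro hO3
      have e := ad_split (G := G) O
      have e1 : ad G O O ≤ 6 := by
        unfold ad
        calc ∑ v ∈ O, nb G v O ≤ ∑ v ∈ O, 2 := Finset.sum_le_sum (fun v hv => by
              have := nb_lt_card (G := G) hv
              omega)
          _ = 6 := by rw [Finset.sum_const, hO3]; rfl
      have e2 : 3 * δ ≤ ∑ v ∈ O, nb G v Finset.univ := by
        calc 3 * δ = ∑ v ∈ O, δ := by rw [Finset.sum_const, hO3, smul_eq_mul]
          _ ≤ _ := Finset.sum_le_sum (fun v _ => hδ v)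
      omega
    · intro h3 h3'
      have e := ad_split (G := G) O
      have e2 : ∑ v ∈ O, nb G v Finset.univ = 3 * O.card := by
        rw [Finset.sum_congr rfl (fun v _ => (show nb G v Finset.univ = 3 by
          have := hδ v
          have := hΔ v
          omega)), Finset.sum_const, smul_eq_mul, mul_comm]
      have e3 : ad G O O = 2 * ∑ v ∈ O, ind D O v := by
        unfold ad
        rw [Finset.sum_congr rfl (fun v _ => (deg_eq hD v O).symm), Finset.sum_add_distrib,
          sum_outd]
        ring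
      rw [e2, e3] at e
      obtain ⟨p, hp⟩ := hodd
      rw [Nat.odd_iff]
      omega

/-- the inequality for one bad set -/
lemma bad_ineq (hD : Ori G D) {δ k : ℕ} (h1 : 1 ≤ δ) (hex : ¬ (δ = 2 ∧ δ + k ≤ 3))
    (hδ : ∀ v, δ ≤ nb G v Finset.univ)
    (hΔ : ∀ v, nb G v Finset.univ ≤ δ + k) {O : Finset V} (hodd : Odd O.card) (hB : Bad G O) :
    2 * δ + k ≤ 2 * bd G O + k * O.card := by
  rcases bad_facts hD hδ hΔ hodd hB with ⟨ho, hb⟩ | ⟨h3, hΔ2, hb, hb3, hpar⟩
  · rw [ho]; omega
  · have hm3 : k * 3 ≤ k * O.card := Nat.mul_le_mul_left _ h3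
    by_cases hδ4 : 4 ≤ δ
    · omega
    · have hcase : δ = 1 ∨ δ = 2 ∨ δ = 3 := by omega
      rcases hcase with rfl | rfl | rfl
      · omega
      · omega
      · by_cases hk : k = 0
        · subst hk
          have := hpar rfl rfl
          rw [Nat.odd_iff] at this
          omega
        · by_cases hO3 : O.card = 3
          · have := hb3 hO3
            rw [hO3]
            omega
          · have hO5 : 5 ≤ O.card := by
              obtain ⟨p, hp⟩ := hodd
              omega
            have hm5 : k * 5 ≤ k * O.card := Nat.mul_le_mul_left _ hO5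
            omega

/-- bad families are small -/
lemma bad_fam (hD : Ori G D) {δ k : ℕ} (h1 : 1 ≤ δ) (hex : ¬ (δ = 2 ∧ δ + k ≤ 3))
    (hδ : ∀ v, δ ≤ nb G v Finset.univ)
    (hΔ : ∀ v, nb G v Finset.univ ≤ δ + k) (h : Fam G A F) (hB : ∀ O ∈ F, Bad G O) :
    F.card ≤ A.card + k * Fintype.card V / (2 * δ + k) := by
  have s1 : ∑ O ∈ F, (2 * δ + k) ≤ ∑ O ∈ F, (2 * bd G O + k * O.card) :=
    Finset.sum_le_sum (fun O hO => bad_ineq hD h1 hex hδ hΔ (h.odd O hO) (hB O hO))
  rw [Finset.sum_const, smul_eq_mul, Finset.sum_add_distrib, ← Finset.mul_sum,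
    ← Finset.mul_sum] at s1
  have s2 := h.sum_bd hΔ
  have s3 := h.sum_card
  have s4 : k * (∑ O ∈ F, O.card) + k * A.card ≤ k * Fintype.card V := by
    rw [← mul_add]
    exact Nat.mul_le_mul_left _ s3
  have s5 : F.card * (2 * δ + k) ≤ A.card * (2 * δ + k) + k * Fintype.card V := by
    have e1 : 2 * ((δ + k) * A.card) = A.card * (2 * δ + k) + k * A.card := by ring
    omega
  by_cases hle : F.card ≤ A.card
  · exact le_trans hle (Nat.le_add_right _ _)
  · have s6 : (F.card - A.card) * (2 * δ + k) ≤ k * Fintype.card V := by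
      rw [Nat.sub_mul]
      omega
    have s7 := (Nat.le_div_iff_mul_le (by omega : 0 < 2 * δ + k)).2 s6
    generalize k * Fintype.card V / (2 * δ + k) = q at s7 ⊢
    omega

/-- bad families are small: the exceptional case -/
lemma bad_fam' (hD : Ori G D) (hδ : ∀ v, 2 ≤ nb G v Finset.univ)
    (hΔ : ∀ v, nb G v Finset.univ ≤ 3) (h : Fam G A F) (hB : ∀ O ∈ F, Bad G O) :
    F.card ≤ A.card + Fintype.card V / 3 := by
  have s1 : ∑ O ∈ F, 9 ≤ ∑ O ∈ F, (4 * bd G O + 3 * O.card) := by
    apply Finset.sum_le_sum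
    intro O hO
    rcases bad_facts hD hδ hΔ (h.odd O hO) (hB O hO) with ⟨ho, hb⟩ | ⟨h3, hΔ2, hb, hb3, hpar⟩
    · omega
    · omega
  rw [Finset.sum_const, smul_eq_mul, Finset.sum_add_distrib, ← Finset.mul_sum,
    ← Finset.mul_sum] at s1
  have s2 := h.sum_bd hΔ
  have s3 := h.sum_card
  omega

end Pool.Agent.Y359.DD
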