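import Pool.Agent.Y359.DD.Core

/-!
A bound of Tutte and Berge type for dominating sets of orientations of a graph: main theorem.
-/

set_option autoImplicit false
set_option linter.unusedSectionVars false
set_option linter.unusedVariables false

open Relation

namespace Pool.Agent.Y359.DD

open H168DD

variable {V : Type*} [Fintype V] [DecidableEq V]
variable {G : SimpleGraph V} {D : V → V → Prop}

/-- dominating sets from a perfect matching -/
lemma pm_dom (hD : Ori G D) {P : Finset V} {m : V → V} (hm : PM G P m) :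
    ∃ C, C ⊆ P ∧ (∀ v ∈ P, v ∉ C → ∃ u ∈ C, D u v) ∧ 2 * C.card ≤ P.card := by
  classical
  set X := P.filter (fun x => D x (m x)) with hX
  set Y := P.filter (fun x => D (m x) x) with hY
  have hXY : X.card ≤ Y.card := by
    apply Finset.card_le_card_of_injOn m
    · intro x hx
      rw [Finset.mem_coe, hX, Finset.mem_filter] at hx
      rw [Finset.mem_coe, hY, Finset.mem_filter]
      obtain ⟨h1, h2, h3⟩ := hm x hx.1
      refine ⟨h1, ?_⟩
      rw [h2]; exact hx.2
    · intro x hx y hy hxy
      rw [Finset.mem_coe, hX, Finset.mem_filter] at hx hy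
      obtain ⟨_, h2, _⟩ := hm x hx.1
      obtain ⟨_, h2', _⟩ := hm y hy.1
      rw [← h2, ← h2', hxy]
  have hdis : Disjoint X Y := by
    rw [Finset.disjoint_left]
    intro x hx hy
    rw [hX, Finset.mem_filter] at hx
    rw [hY, Finset.mem_filter] at hy
    exact hD.1 _ _ hx.2 hy.2
  have hXY2 : X.card + Y.card ≤ P.card := by
    rw [← Finset.card_union_of_disjoint hdis]
    exact Finset.card_le_card (Finset.union_subset (Finset.filter_subset _ _)
      (Finset.filter_subset _ _))
  refine ⟨X, Finset.filter_subset _ _, ?_, by omega⟩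
  intro v hv hvC
  obtain ⟨h1, h2, h3⟩ := hm v hv
  have hnot : ¬ D v (m v) := fun h => hvC (Finset.mem_filter.2 ⟨hv, h⟩)
  have hyes : D (m v) v := by
    rcases (hD.2 _ _).1 h3 with h | h
    · exact absurd h hnot
    · exact h
  refine ⟨m v, Finset.mem_filter.2 ⟨h1, ?_⟩, hyes⟩
  rw [h2]; exact hyes

/-- good sets with near-perfect matchings -/
lemma good_dom (hD : Ori G D) {O : Finset V} (hodd : Odd O.card) (hb : ¬ Bad G O)
    (hfc : ∀ w ∈ O, ∃ m, PM G (O.erase w) m) :
    ∃ C, C ⊆ O ∧ (∀ v ∈ O, v ∉ C → ∃ u ∈ C, D u v) ∧ 2 * C.card + 1 ≤ O.card := by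
  classical
  unfold Bad at hb
  push Not at hb
  obtain ⟨hb1, hb2⟩ := hb
  have h3 : 3 ≤ O.card := by obtain ⟨p, hp⟩ := hodd; omega
  have hFC : ∀ w ∈ O, ∃ m, PMs D (O.erase w) m := by
    intro w hw
    obtain ⟨m, hm⟩ := hfc w hw
    exact ⟨m, fun x hx => ⟨(hm x hx).1, (hm x hx).2.1, (hD.2 _ _).1 (hm x hx).2.2⟩⟩
  have key : ∃ C, Dom D O C ∧ 2 * C.card ≤ O.card := by
    by_cases hsc : SC D O
    · by_contra hcon
      push Not at hcon
      have irr : ∀ a, ¬ D a a := fun a h => hD.1 a a h h
      have hO := odds_of_bad irr hsc hcon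
      obtain ⟨x, y, hxy, hx, hy⟩ := two_theta hO h3
      have dx := deg_of_thE hx
      have dy := deg_of_thE hy
      have hxS : x ∈ O := by obtain ⟨_, _, h⟩ := hx; exact h.1
      have hyS : y ∈ O := by obtain ⟨_, _, h⟩ := hy; exact h.1
      exact hb2 x hxS y hyS hxy (by rw [← deg_eq hD, dx.1, dx.2]) (by rw [← deg_eq hD, dy.1, dy.2])
    · exact good_of_not_sc hD.1 hFC hsc
  obtain ⟨C, hC, hc⟩ := key
  obtain ⟨p, hp⟩ := hodd
  exact ⟨C, hC.1, hC.2, by omega⟩

lemma card_lt_ge (d b : ℕ) :
    min b d ≤ (Finset.univ.filter (fun i : Fin d => (i : ℕ) < b)).card := by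
  classical
  rw [← Finset.card_image_of_injective _ Fin.val_injective]
  conv_lhs => rw [← Finset.card_range (min b d)]
  apply Finset.card_le_card
  intro j hj
  rw [Finset.mem_range, lt_min_iff] at hj
  exact Finset.mem_image.2 ⟨⟨j, hj.2⟩, by simp [hj.1], rfl⟩

section maximal

variable {A : Finset V} {F : Finset (Finset V)} {d : ℕ}

lemma hall_step (h : Fam G A F) (hc : F.card = A.card + d)
    (h1 : ∀ A' F', Fam G A' F' → F'.card ≤ A'.card + d) (b : ℕ)
    (hb : ∀ A' F', Fam G A' F' → (∀ O ∈ F', Bad G O) → F'.card ≤ A'.card + b) :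
    ∃ f : {O // O ∈ F} → V ⊕ Fin d, Function.Injective f ∧
      (∀ O a, f O = Sum.inl a → a ∈ A ∧ ∃ x ∈ O.1, G.Adj x a) ∧
      (∀ O i, f O = Sum.inr i → Bad G O.1 → (i : ℕ) < b) ∧
      ∀ a ∈ A, ∃ O, f O = Sum.inl a := by
  classical
  let N : Finset V → Finset V := fun O => A.filter (fun a => ∃ x ∈ O, G.Adj x a)
  let t : {O // O ∈ F} → Finset (V ⊕ Fin d) := fun O =>
    (N O.1).disjSum (Finset.univ.filter (fun i : Fin d => Bad G O.1 → (i : ℕ) < b))
  have hhall : ∀ s : Finset {O // O ∈ F}, s.card ≤ (s.biUnion t).card := by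
    intro s
    rcases s.eq_empty_or_nonempty with rfl | ⟨O0, hO0⟩
    · simp
    set A' := s.biUnion (fun O => N O.1) with hA'
    set F' := s.image Subtype.val with hF'
    have hsF : s.card = F'.card := by
      rw [hF', Finset.card_image_of_injective _ Subtype.val_injective]
    have hfam : Fam G A' F' := by
      refine ⟨?_, ?_, ?_, ?_⟩
      · intro O hO
        obtain ⟨P, hP, rfl⟩ := Finset.mem_image.1 hO
        exact h.odd _ P.2
      · intro O hO O' hO' hne
        obtain ⟨P, hP, rfl⟩ := Finset.mem_image.1 hO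
        obtain ⟨P', hP', rfl⟩ := Finset.mem_image.1 hO'
        exact h.disj _ P.2 _ P'.2 hne
      · intro O hO
        obtain ⟨P, hP, rfl⟩ := Finset.mem_image.1 hO
        refine Finset.disjoint_of_subset_right ?_ (h.dA _ P.2)
        intro a ha
        rw [hA', Finset.mem_biUnion] at ha
        obtain ⟨Q, _, ha⟩ := ha
        exact (Finset.mem_filter.1 ha).1
      · intro O hO x hx y hxy
        obtain ⟨P, hP, rfl⟩ := Finset.mem_image.1 hO
        rcases h.cl _ P.2 x hx y hxy with h3 | h3
        · exact Or.inl h3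
        · right
          rw [hA', Finset.mem_biUnion]
          exact ⟨P, hP, Finset.mem_filter.2 ⟨h3, x, hx, hxy⟩⟩
    have e2 := h1 A' F' hfam
    by_cases hall : ∀ O ∈ s, Bad G O.1
    · have e1 := hb A' F' hfam (by
        intro O hO
        obtain ⟨P, hP, rfl⟩ := Finset.mem_image.1 hO
        exact hall P hP)
      have hsub : A'.disjSum (Finset.univ.filter (fun i : Fin d => (i : ℕ) < b)) ⊆
          s.biUnion t := by
        intro z hz
        rw [Finset.mem_biUnion]
        rcases z with a | i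
        · rw [Finset.inl_mem_disjSum, hA', Finset.mem_biUnion] at hz
          obtain ⟨O, hO, ha⟩ := hz
          exact ⟨O, hO, Finset.inl_mem_disjSum.2 ha⟩
        · rw [Finset.inr_mem_disjSum, Finset.mem_filter] at hz
          exact ⟨O0, hO0, Finset.inr_mem_disjSum.2
            (Finset.mem_filter.2 ⟨Finset.mem_univ _, fun _ => hz.2⟩)⟩
      have hcard := Finset.card_le_card hsub
      rw [Finset.card_disjSum] at hcard
      have hmin := card_lt_ge d b
      omega
    · push Not at hall
      obtain ⟨O1, hO1, hgood⟩ := hall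
      have hsub : A'.disjSum (Finset.univ : Finset (Fin d)) ⊆ s.biUnion t := by
        intro z hz
        rw [Finset.mem_biUnion]
        rcases z with a | i
        · rw [Finset.inl_mem_disjSum, hA', Finset.mem_biUnion] at hz
          obtain ⟨O, hO, ha⟩ := hz
          exact ⟨O, hO, Finset.inl_mem_disjSum.2 ha⟩
        · exact ⟨O1, hO1, Finset.inr_mem_disjSum.2
            (Finset.mem_filter.2 ⟨Finset.mem_univ _, fun hB => absurd hB hgood⟩)⟩
      have hcard := Finset.card_le_card hsub
      rw [Finset.card_disjSum, Finset.card_univ, Fintype.card_fin] at hcard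
      omega
  obtain ⟨f, hinj, hf⟩ := (Finset.all_card_le_biUnion_card_iff_exists_injective t).1 hhall
  have hfl : ∀ O a, f O = Sum.inl a → a ∈ A ∧ ∃ x ∈ O.1, G.Adj x a := by
    intro O a hOa
    have := hf O
    rw [hOa, Finset.inl_mem_disjSum, Finset.mem_filter] at this
    exact this
  have himg : Finset.univ.image f = A.disjSum Finset.univ := by
    apply Finset.eq_of_subset_of_card_le
    · intro z hz
      obtain ⟨O, _, rfl⟩ := Finset.mem_image.1 hz
      cases hO : f O with
      | inl a => exact Finset.inl_mem_disjSum.2 (hfl O a hO).1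
      | inr i => exact Finset.inr_mem_disjSum.2 (Finset.mem_univ _)
    · rw [Finset.card_image_of_injective _ hinj, Finset.card_univ, Fintype.card_coe,
        Finset.card_disjSum, Finset.card_univ, Fintype.card_fin]
      omega
  refine ⟨f, hinj, hfl, ?_, ?_⟩
  · intro O i hOi hB
    have := hf O
    rw [hOi, Finset.inr_mem_disjSum, Finset.mem_filter] at this
    exact this.2 hB
  · intro a ha
    have : Sum.inl a ∈ Finset.univ.image f := by
      rw [himg]; exact Finset.inl_mem_disjSum.2 ha
    obtain ⟨O, _, hO⟩ := Finset.mem_image.1 this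
    exact ⟨O, hO⟩

/-- adding an edge to a matching -/
lemma PM.insert2 {O : Finset V} {w a : V} {m : V → V} (hw : w ∈ O) (ha : a ∉ O)
    (haw : G.Adj w a) (hm : PM G (O.erase w) m) : ∃ m', PM G (insert a O) m' := by
  classical
  have hwa : w ≠ a := haw.ne
  refine ⟨fun x => if x = a then w else if x = w then a else m x, ?_⟩
  intro x hx
  by_cases hxa : x = a
  · subst hxa
    simp only [if_true, if_neg hwa]
    exact ⟨Finset.mem_insert_of_mem hw, trivial, haw.symm⟩
  · by_cases hxw : x = w
    · subst hxw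
      simp only [if_neg hwa, if_true]
      exact ⟨Finset.mem_insert_self _ _, trivial, haw⟩
    · have hxO : x ∈ O.erase w := by
        rcases Finset.mem_insert.1 hx with h | h
        · exact absurd h hxa
        · exact Finset.mem_erase.2 ⟨hxw, h⟩
      obtain ⟨h1, h2, h3⟩ := hm x hxO
      rw [Finset.mem_erase] at h1
      have hma : m x ≠ a := by rintro h; exact ha (h ▸ h1.2)
      simp only [if_neg hxa, if_neg hxw, if_neg hma, if_neg h1.1]
      exact ⟨Finset.mem_insert_of_mem h1.2, h2, h3⟩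

/-- the main theorem -/
theorem core (hD : Ori G D) (b : ℕ)
    (hb : ∀ A' F', Fam G A' F' → (∀ O ∈ F', Bad G O) → F'.card ≤ A'.card + b) :
    ∃ (C S : Finset V) (m : V → V), PM G S m ∧ (∀ v, v ∉ C → ∃ u ∈ C, D u v) ∧
      2 * C.card ≤ S.card + 2 * b ∧ 2 * C.card ≤ Fintype.card V + b := by
  classical
  obtain ⟨A, F, d, h, hc, h1, h2⟩ := exists_max (G := G)
  have hcov := cover_of_max h hc h1 h2
  have hfc : ∀ O ∈ F, ∀ w ∈ O, ∃ m, PM G (O.erase w) m :=
    fun O hO w hw => fc_of_max h hc h1 h2 hO hw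
  obtain ⟨f, hinj, hfl, hfr, hsurj⟩ := hall_step h hc h1 b hb
  let T : {O // O ∈ F} → Finset V := fun O => O.1 ∪ A.filter (fun a => f O = Sum.inl a)
  let e : {O // O ∈ F} → ℕ := fun O => if (∃ i, f O = Sum.inr i) ∧ Bad G O.1 then 1 else 0
  have hTl : ∀ O a, f O = Sum.inl a → T O = insert a O.1 := by
    intro O a hOa
    ext x
    simp only [T, Finset.mem_union, Finset.mem_filter, Finset.mem_insert, hOa, Sum.inl.injEq]
    constructor
    · rintro (h3 | ⟨_, rfl⟩)
      · exact Or.inr h3
      · exact Or.inl rfl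
    · rintro (rfl | h3)
      · exact Or.inr ⟨(hfl O x hOa).1, rfl⟩
      · exact Or.inl h3
  have hTr : ∀ O i, f O = Sum.inr i → T O = O.1 := by
    intro O i hOi
    ext x
    simp [T, hOi]
  have hdata : ∀ O : {O // O ∈ F}, ∃ (C S : Finset V) (m : V → V), S ⊆ T O ∧ PM G S m ∧
      (∀ v ∈ T O, v ∉ C → ∃ u ∈ C, D u v) ∧ 2 * C.card ≤ S.card + 2 * e O ∧
      2 * C.card ≤ (T O).card + e O := by
    intro O
    have hodd := h.odd O.1 O.2
    have hne : O.1.Nonempty := by
      obtain ⟨p, hp⟩ := hodd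
      rw [← Finset.card_pos]; omega
    cases hO : f O with
    | inl a =>
      obtain ⟨haA, w, hw, hwa⟩ := hfl O a hO
      have haO : a ∉ O.1 := fun h3 => Finset.disjoint_left.1 (h.dA O.1 O.2) h3 haA
      obtain ⟨m, hm⟩ := hfc O.1 O.2 w hw
      obtain ⟨m', hm'⟩ := PM.insert2 hw haO hwa hm
      obtain ⟨C, hC1, hC2, hC3⟩ := pm_dom hD hm'
      refine ⟨C, insert a O.1, m', ?_, hm', ?_, by omega, ?_⟩
      · rw [hTl O a hO]
      · rw [hTl O a hO]; exact hC2
      · rw [hTl O a hO]; omega
    | inr i =>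
      rw [hTr O i hO]
      obtain ⟨w, hw⟩ := hne
      obtain ⟨m, hm⟩ := hfc O.1 O.2 w hw
      have hcw : (O.1.erase w).card + 1 = O.1.card := Finset.card_erase_add_one hw
      by_cases hB : Bad G O.1
      · have he : e O = 1 := by
          simp only [e]
          rw [if_pos ⟨⟨i, hO⟩, hB⟩]
        obtain ⟨C, hC1, hC2, hC3⟩ := pm_dom hD hm
        have hci := Finset.card_insert_le w C
        refine ⟨insert w C, O.1.erase w, m, Finset.erase_subset _ _, hm, ?_, by omega, by omega⟩
        intro v hv hvC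
        rw [Finset.mem_insert, not_or] at hvC
        obtain ⟨u, hu, huv⟩ := hC2 v (Finset.mem_erase.2 ⟨hvC.1, hv⟩) hvC.2
        exact ⟨u, Finset.mem_insert_of_mem hu, huv⟩
      · obtain ⟨C, hC1, hC2, hC3⟩ := good_dom hD hodd hB (hfc O.1 O.2)
        exact ⟨C, O.1.erase w, m, Finset.erase_subset _ _, hm, hC2, by omega, by omega⟩
  choose C S m hST hPM hdom hc1 hc2 using hdata
  have hTdisj : ∀ O O' : {O // O ∈ F}, O ≠ O' → Disjoint (T O) (T O') := by
    intro O O' hne
    rw [Finset.disjoint_left]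
    intro x hx hx'
    simp only [T, Finset.mem_union, Finset.mem_filter] at hx hx'
    rcases hx with hx | ⟨hxA, hx⟩
    · rcases hx' with hx' | ⟨hxA', hx'⟩
      · exact Finset.disjoint_left.1 (h.disj O.1 O.2 O'.1 O'.2
          (fun he => hne (Subtype.ext he))) hx hx'
      · exact Finset.disjoint_left.1 (h.dA O.1 O.2) hx hxA'
    · rcases hx' with hx' | ⟨hxA', hx'⟩
      · exact Finset.disjoint_left.1 (h.dA O'.1 O'.2) hx' hxA
      · exact hne (hinj (hx.trans hx'.symm))
  have hTcov : ∀ x, ∃ O, x ∈ T O := by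
    intro x
    rcases hcov x with hx | ⟨O, hO, hx⟩
    · obtain ⟨O, hO⟩ := hsurj x hx
      exact ⟨O, by rw [hTl O x hO]; exact Finset.mem_insert_self _ _⟩
    · exact ⟨⟨O, hO⟩, Finset.mem_union_left _ hx⟩
  have hsumT : ∑ O, (T O).card ≤ Fintype.card V := by
    rw [← Finset.card_biUnion (s := Finset.univ) (t := T)
      (fun O _ O' _ hne => hTdisj O O' hne)]
    exact Finset.card_le_univ _
  have hsumS : ∑ O, (S O).card = (Finset.univ.biUnion S).card := by
    rw [Finset.card_biUnion]
    intro O _ O' _ hne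
    exact Finset.disjoint_of_subset_left (hST O)
      (Finset.disjoint_of_subset_right (hST O') (hTdisj O O' hne))
  have hsume : ∑ O, e O ≤ b := by
    simp only [e]
    rw [Finset.sum_ite, Finset.sum_const_zero, add_zero, Finset.sum_const, smul_eq_mul, mul_one]
    rw [← Finset.card_range b]
    apply Finset.card_le_card_of_injOn (fun O => match f O with
      | Sum.inl _ => 0
      | Sum.inr i => (i : ℕ))
    · intro O hO
      rw [Finset.mem_coe, Finset.mem_filter] at hO
      obtain ⟨_, ⟨i, hi⟩, hB⟩ := hO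
      simp only [hi, Finset.coe_range, Set.mem_Iio]
      exact hfr O i hi hB
    · intro O hO O' hO' heq
      rw [Finset.mem_coe, Finset.mem_filter] at hO hO'
      obtain ⟨_, ⟨i, hi⟩, hB⟩ := hO
      obtain ⟨_, ⟨i', hi'⟩, hB'⟩ := hO'
      simp only [hi, hi'] at heq
      apply hinj
      rw [hi, hi', Fin.ext heq]
  have hcC : (Finset.univ.biUnion C).card ≤ ∑ O, (C O).card := Finset.card_biUnion_le
  have hs1 : ∑ O, 2 * (C O).card ≤ ∑ O, ((S O).card + 2 * e O) :=
    Finset.sum_le_sum (fun O _ => hc1 O)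
  have hs2 : ∑ O, 2 * (C O).card ≤ ∑ O, ((T O).card + e O) :=
    Finset.sum_le_sum (fun O _ => hc2 O)
  rw [← Finset.mul_sum, Finset.sum_add_distrib, ← Finset.mul_sum] at hs1
  rw [← Finset.mul_sum, Finset.sum_add_distrib] at hs2
  have huniq : ∀ x O O', x ∈ S O → x ∈ S O' → O = O' := by
    intro x O O' hx hx'
    by_contra hne
    exact Finset.disjoint_left.1 (hTdisj O O' hne) (hST O hx) (hST O' hx')
  refine ⟨Finset.univ.biUnion C, Finset.univ.biUnion S,
    fun x => if hx : ∃ O, x ∈ S O then m hx.choose x else x, ?_, ?_, by omega, by omega⟩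
  · intro x hx
    rw [Finset.mem_biUnion] at hx
    obtain ⟨O, _, hx⟩ := hx
    obtain ⟨g1, g2, g3⟩ := hPM O x hx
    have hex : ∃ O, x ∈ S O := ⟨O, hx⟩
    have hex' : ∃ O', m O x ∈ S O' := ⟨O, g1⟩
    have e1 : hex.choose = O := huniq x _ _ hex.choose_spec hx
    have e2 : hex'.choose = O := huniq _ _ _ hex'.choose_spec g1
    have f1 : (if hx : ∃ O, x ∈ S O then m hx.choose x else x) = m O x := by
      rw [dif_pos hex, e1]
    have f2 : (if hx : ∃ O', m O x ∈ S O' then m hx.choose (m O x) else m O x) =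
        m O (m O x) := by
      rw [dif_pos hex', e2]
    simp only [f1]
    refine ⟨Finset.mem_biUnion.2 ⟨O, Finset.mem_univ _, g1⟩, ?_, g3⟩
    rw [f2]
    exact g2
  · intro v hv
    obtain ⟨O, hO⟩ := hTcov v
    have hvC : v ∉ C O := fun h3 => hv (Finset.mem_biUnion.2 ⟨O, Finset.mem_univ _, h3⟩)
    obtain ⟨u, hu, huv⟩ := hdom O v hO hvC
    exact ⟨u, Finset.mem_biUnion.2 ⟨O, Finset.mem_univ _, hu⟩, huv⟩

end maximal

end Pool.Agent.Y359.DD
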